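import Pool.Agent.Helper55.MA.Clo

set_option autoImplicit false
set_option linter.unusedSectionVars false

namespace Pool.Agent.Helper52.MA

open Set Pool.Agent.Helper33.HM Pool.Agent.Helper33.HMG Pool.Agent.Helper32.HB

universe u

variable {P : Type u} [Preorder P] [OrderTop P] {Ω : Type} [LinearOrder Ω] [WellFoundedLT Ω]
variable {R : Type} {W : R → (ℕ → Nm P) → P → Nm P → Prop} (g : Gen W)

theorem mem_val_on {x : Ω} {z : ZFSet.{0}} :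
    z ∈ g.val (on x) ↔ ∃ y, y < x ∧ on y ∈ g.N ∧ g.val (on y) = z := by
  rw [on_eq, g.mem_val]
  constructor
  · rintro ⟨⟨y, hy⟩, h1, -, h2⟩
    exact ⟨y, hy, h1, h2⟩
  · rintro ⟨y, hy, h1, h2⟩
    exact ⟨⟨y, hy⟩, h1, ⟨0, le_top⟩, h2⟩

theorem mem_val_wN {z : ZFSet.{0}} :
    z ∈ g.val (wN Ω) ↔ ∃ y : Ω, on y ∈ g.N ∧ g.val (on y) = z := by
  rw [wN, g.mem_val]
  constructor
  · rintro ⟨⟨y⟩, h1, -, h2⟩
    exact ⟨y, h1, h2⟩
  · rintro ⟨y, h1, h2⟩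
    exact ⟨⟨y⟩, h1, ⟨0, le_top⟩, h2⟩

theorem val_on_inj {x y : Ω} (hx : on x ∈ g.N) (hy : on y ∈ g.N)
    (h : g.val (on x) = g.val (on y)) : x = y := by
  obtain ⟨k, hk⟩ := (g.eq_iff hx hy).2 h
  exact eq_of_feq_on hk

theorem val_on_mem {x y : Ω} (hx : on x ∈ g.N) (hy : on y ∈ g.N) :
    g.val (on x) ∈ g.val (on y) ↔ x < y := by
  rw [← g.mem_iff hx hy]
  exact ⟨fun ⟨k, hk⟩ => lt_of_fmem_on hk, fun h => ⟨0, fmem_on h _⟩⟩

theorem vals_upairN {σ τ : Nm P} (hσ : σ ∈ g.N) (hτ : τ ∈ g.N) {z : ZFSet.{0}} :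
    z ∈ g.val (upairN σ τ) ↔ z = g.val σ ∨ z = g.val τ := by
  rw [g.mem_val]
  constructor
  · rintro ⟨⟨b⟩, h1, -, h2⟩
    cases b with
    | true => exact Or.inl h2.symm
    | false => exact Or.inr h2.symm
  · rintro (h | h)
    · exact ⟨⟨true⟩, hσ, ⟨0, le_top⟩, h.symm⟩
    · exact ⟨⟨false⟩, hτ, ⟨0, le_top⟩, h.symm⟩

theorem val_pairN {σ τ : Nm P} (hσ : σ ∈ g.N) (hτ : τ ∈ g.N)
    (h1 : upairN σ σ ∈ g.N) (h2 : upairN σ τ ∈ g.N) :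
    g.val (pairN σ τ) = ZFSet.pair (g.val σ) (g.val τ) := by
  ext z
  rw [pairN, vals_upairN g h1 h2]
  have e1 : g.val (upairN σ σ) = {g.val σ} := by
    ext w
    rw [vals_upairN g hσ hσ, ZFSet.mem_singleton, or_self]
  have e2 : g.val (upairN σ τ) = {g.val σ, g.val τ} := by
    ext w
    rw [vals_upairN g hσ hτ, ZFSet.mem_pair]
  rw [e1, e2, ZFSet.pair, ZFSet.mem_pair]

theorem val_pairN' (hg : Meets Ω g) {σ τ : Nm P} (hσ : σ ∈ g.N) (hτ : τ ∈ g.N) :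
    g.val (pairN σ τ) = ZFSet.pair (g.val σ) (g.val τ) :=
  val_pairN g hσ hτ (upairN_mem g hg hσ hσ) (upairN_mem g hg hσ hτ)

theorem st_iff {α : Nm P} {x : Ω} (hα : α ∈ g.N) (hx : on x ∈ g.N) :
    Tr g (st α x) ↔ g.val (on x) ∈ g.val α := g.mem_iff hx hα

theorem rel_iff (hg : Meets Ω g) {ρ : Nm P} {x y : Ω} (hρ : ρ ∈ g.N) (hx : on x ∈ g.N)
    (hy : on y ∈ g.N) :
    Tr g (rel ρ x y) ↔ ZFSet.pair (g.val (on x)) (g.val (on y)) ∈ g.val ρ := by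
  rw [← val_pairN' g hg hx hy]
  exact g.mem_iff (pairN_mem g hg hx hy) hρ

theorem fnc_iff (hg : Meets Ω g) {φ : Nm P} {n : ℕ} {x : Ω} (hφ : φ ∈ g.N) (hx : on x ∈ g.N) :
    Tr g (fnc φ (numN n) x) ↔ ZFSet.pair (Gen.nat n) (g.val (on x)) ∈ g.val φ := by
  have h1 : g.val (numN n) = Gen.nat n := g.val_num n
  rw [← h1, ← val_pairN' g hg (numN_mem g n) hx]
  exact g.mem_iff (pairN_mem g hg (numN_mem g n) hx) hφ

end Pool.Agent.Helper52.MA
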